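import Pool.Agent.Helper54.SRD.Basic

/-!
Packet SRD-TAY of MP_d08e19_gt: uniform second order expansion of the energy density.
-/

open Set Filter
open scoped Manifold ContDiff Topology

set_option maxSynthPendingDepth 3

noncomputable section

namespace Pool.Agent.Helper88.SRD

open Pool.Agent.Helper54.SRD

/-- second order Taylor estimate in one variable -/
theorem taylor2 {f f1 f2 : ℝ → ℝ} {η ε A : ℝ}
    (h1 : ∀ x, |x| < η → HasDerivAt f (f1 x) x) (h2 : ∀ x, |x| < η → HasDerivAt f1 (f2 x) x)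
    (h3 : ∀ x, |x| < η → |f2 x - A| ≤ ε) {s : ℝ} (hs : |s| < η) :
    |f s - f 0 - s * f1 0 - s ^ 2 / 2 * A| ≤ ε * s ^ 2 := by
  have hη : 0 < η := lt_of_le_of_lt (abs_nonneg s) hs
  have key1 : ∀ x, |x| < η → |f1 x - f1 0 - x * A| ≤ ε * |x| := by
    intro x hx
    have hd : ∀ y ∈ Metric.ball (0 : ℝ) η,
        HasDerivWithinAt (fun y => f1 y - y * A) (f2 y - A) (Metric.ball (0 : ℝ) η) y := by
      intro y hy
      have hy' : |y| < η := by simpa [Metric.mem_ball, dist_zero_right] using hy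
      have := (h2 y hy').sub ((hasDerivAt_id y).mul_const A)
      rw [one_mul] at this
      exact this.hasDerivWithinAt
    have hb : ∀ y ∈ Metric.ball (0 : ℝ) η, ‖f2 y - A‖ ≤ ε := by
      intro y hy
      have hy' : |y| < η := by simpa [Metric.mem_ball, dist_zero_right] using hy
      simpa [Real.norm_eq_abs] using h3 y hy'
    have h0 : (0 : ℝ) ∈ Metric.ball (0 : ℝ) η := Metric.mem_ball_self hη
    have hx' : x ∈ Metric.ball (0 : ℝ) η := by
      simpa [Metric.mem_ball, dist_zero_right] using hx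
    have := (convex_ball (0 : ℝ) η).norm_image_sub_le_of_norm_hasDerivWithin_le hd hb h0 hx'
    simp only [Real.norm_eq_abs] at this
    have e : f1 x - x * A - (f1 0 - 0 * A) = f1 x - f1 0 - x * A := by ring
    rw [e, sub_zero] at this
    exact this
  have hε : 0 ≤ ε := (abs_nonneg _).trans (h3 0 (by simpa using hη))
  have hd : ∀ y ∈ Metric.closedBall (0 : ℝ) |s|,
      HasDerivWithinAt (fun y => f y - y * f1 0 - y ^ 2 / 2 * A) (f1 y - f1 0 - y * A)
        (Metric.closedBall (0 : ℝ) |s|) y := by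
    intro y hy
    have hy' : |y| < η := by
      have : |y| ≤ |s| := by simpa [Metric.mem_closedBall, dist_zero_right] using hy
      linarith
    have e1 := (h1 y hy').sub ((hasDerivAt_id y).mul_const (f1 0))
    have e2 : HasDerivAt (fun y : ℝ => y ^ 2 / 2 * A) (y * A) y := by
      have := ((hasDerivAt_pow 2 y).div_const 2).mul_const A
      have e5 : ((2 : ℕ) : ℝ) * y ^ (2 - 1) / 2 * A = y * A := by norm_num
      rw [e5] at this
      exact this
    have e3 := e1.sub e2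
    have e4 : f1 y - 1 * f1 0 - y * A = f1 y - f1 0 - y * A := by ring
    rw [e4] at e3
    exact e3.hasDerivWithinAt
  have hb : ∀ y ∈ Metric.closedBall (0 : ℝ) |s|, ‖f1 y - f1 0 - y * A‖ ≤ ε * |s| := by
    intro y hy
    have hy1 : |y| ≤ |s| := by simpa [Metric.mem_closedBall, dist_zero_right] using hy
    rw [Real.norm_eq_abs]
    exact (key1 y (lt_of_le_of_lt hy1 hs)).trans (mul_le_mul_of_nonneg_left hy1 hε)
  have h0 : (0 : ℝ) ∈ Metric.closedBall (0 : ℝ) |s| := Metric.mem_closedBall_self (abs_nonneg s)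
  have hs' : s ∈ Metric.closedBall (0 : ℝ) |s| := by
    simp [Metric.mem_closedBall, dist_zero_right]
  have := (convex_closedBall (0 : ℝ) |s|).norm_image_sub_le_of_norm_hasDerivWithin_le hd hb h0 hs'
  simp only [Real.norm_eq_abs] at this
  have e : f s - s * f1 0 - s ^ 2 / 2 * A - (f 0 - 0 * f1 0 - 0 ^ 2 / 2 * A) =
      f s - f 0 - s * f1 0 - s ^ 2 / 2 * A := by ring
  rw [e, sub_zero] at this
  calc |f s - f 0 - s * f1 0 - s ^ 2 / 2 * A| ≤ ε * |s| * |s| := this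
    _ = ε * s ^ 2 := by rw [mul_assoc, abs_mul_abs_self, sq]

variable {E : Type*} [NormedAddCommGroup E] [NormedSpace ℝ E]

/-- the curve in the base -/
def cc (z v w : E) (s : ℝ) : E := z + s • v + s ^ 2 • w

/-- its derivative -/
def cd (v w : E) (s : ℝ) : E := v + (2 * s) • w

theorem hasDerivAt_cc (z v w : E) (s : ℝ) : HasDerivAt (cc z v w) (cd v w s) s := by
  have h1 : HasDerivAt (fun s : ℝ => s • v) ((1 : ℝ) • v) s := (hasDerivAt_id s).smul_const v
  have h2 : HasDerivAt (fun s : ℝ => s ^ 2 • w) ((2 * s : ℝ) • w) s := by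
    have := (hasDerivAt_pow 2 s).smul_const w
    simpa using this
  have h3 := (h1.const_add z).add h2
  rw [one_smul] at h3
  exact h3

theorem hasDerivAt_cd (v w : E) (s : ℝ) : HasDerivAt (cd v w) ((2 : ℝ) • w) s := by
  have h2 : HasDerivAt (fun s : ℝ => (2 * s) • w) ((2 * 1 : ℝ) • w) s :=
    ((hasDerivAt_id s).const_mul 2).smul_const w
  have h3 := h2.const_add v
  rw [mul_one] at h3
  exact h3

/-- the energy density along the variation -/
def e0 (G : E → Bil E) (z v w T v' w' : E) (s : ℝ) : ℝ :=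
  G (cc z v w s) (cc T v' w' s) (cc T v' w' s)

/-- first derivative -/
def e1 (G : E → Bil E) (z v w T v' w' : E) (s : ℝ) : ℝ :=
  fderiv ℝ G (cc z v w s) (cd v w s) (cc T v' w' s) (cc T v' w' s)
    + G (cc z v w s) (cd v' w' s) (cc T v' w' s) + G (cc z v w s) (cc T v' w' s) (cd v' w' s)

/-- second derivative -/
def e2 (G : E → Bil E) (z v w T v' w' : E) (s : ℝ) : ℝ :=
  (fderiv ℝ (fderiv ℝ G) (cc z v w s) (cd v w s) (cd v w s) (cc T v' w' s) (cc T v' w' s)
    + fderiv ℝ G (cc z v w s) ((2 : ℝ) • w) (cc T v' w' s) (cc T v' w' s)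
    + fderiv ℝ G (cc z v w s) (cd v w s) (cd v' w' s) (cc T v' w' s)
    + fderiv ℝ G (cc z v w s) (cd v w s) (cc T v' w' s) (cd v' w' s))
  + (fderiv ℝ G (cc z v w s) (cd v w s) (cd v' w' s) (cc T v' w' s)
    + G (cc z v w s) ((2 : ℝ) • w') (cc T v' w' s)
    + G (cc z v w s) (cd v' w' s) (cd v' w' s))
  + (fderiv ℝ G (cc z v w s) (cd v w s) (cc T v' w' s) (cd v' w' s)
    + G (cc z v w s) (cd v' w' s) (cd v' w' s)
    + G (cc z v w s) (cc T v' w' s) ((2 : ℝ) • w'))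

/-- product rule for a bilinear form along curves -/
theorem bil_deriv {B : ℝ → Bil E} {B' : Bil E} {p q : ℝ → E} {p' q' : E} {s : ℝ}
    (hB : HasDerivAt B B' s) (hp : HasDerivAt p p' s) (hq : HasDerivAt q q' s) :
    HasDerivAt (fun s => B s (p s) (q s)) (B' (p s) (q s) + B s p' (q s) + B s (p s) q') s := by
  have h1 := (hB.clm_apply hp).clm_apply hq
  simpa using h1

theorem hasDerivAt_e0 {G : E → Bil E} {U : Set E} (hU : IsOpen U) (hG : ContDiffOn ℝ ∞ G U)
    (z v w T v' w' : E) {s : ℝ} (hs : cc z v w s ∈ U) :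
    HasDerivAt (e0 G z v w T v' w') (e1 G z v w T v' w' s) s := by
  have hd : HasFDerivAt G (fderiv ℝ G (cc z v w s)) (cc z v w s) :=
    ((hG.differentiableOn (by simp)).differentiableAt (hU.mem_nhds hs)).hasFDerivAt
  have hB := hd.comp_hasDerivAt s (hasDerivAt_cc z v w s)
  exact bil_deriv hB (hasDerivAt_cc T v' w' s) (hasDerivAt_cc T v' w' s)

theorem contDiffOn_fderiv {F : Type*} [NormedAddCommGroup F] [NormedSpace ℝ F] {G : E → F}
    {U : Set E} (hU : IsOpen U) (hG : ContDiffOn ℝ ∞ G U) : ContDiffOn ℝ ∞ (fderiv ℝ G) U :=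
  ((contDiffOn_infty_iff_fderiv_of_isOpen hU).1 hG).2

theorem hasDerivAt_e1 {G : E → Bil E} {U : Set E} (hU : IsOpen U) (hG : ContDiffOn ℝ ∞ G U)
    (z v w T v' w' : E) {s : ℝ} (hs : cc z v w s ∈ U) :
    HasDerivAt (e1 G z v w T v' w') (e2 G z v w T v' w' s) s := by
  have hd : HasFDerivAt G (fderiv ℝ G (cc z v w s)) (cc z v w s) :=
    ((hG.differentiableOn (by simp)).differentiableAt (hU.mem_nhds hs)).hasFDerivAt
  have hd2 : HasFDerivAt (fderiv ℝ G) (fderiv ℝ (fderiv ℝ G) (cc z v w s)) (cc z v w s) :=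
    (((contDiffOn_fderiv hU hG).differentiableOn (by simp)).differentiableAt
      (hU.mem_nhds hs)).hasFDerivAt
  have hB := hd.comp_hasDerivAt s (hasDerivAt_cc z v w s)
  have hB2 := hd2.comp_hasDerivAt s (hasDerivAt_cc z v w s)
  have hA := hB2.clm_apply (hasDerivAt_cd v w s)
  have r1 := bil_deriv hA (hasDerivAt_cc T v' w' s) (hasDerivAt_cc T v' w' s)
  have r2 := bil_deriv hB (hasDerivAt_cd v' w' s) (hasDerivAt_cc T v' w' s)
  have r3 := bil_deriv hB (hasDerivAt_cc T v' w' s) (hasDerivAt_cd v' w' s)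
  have r := (r1.add r2).add r3
  exact r

/-- joint continuity of the second derivative -/
theorem continuousAt_e2 {G : E → Bil E} {U : Set E} (hU : IsOpen U) (hG : ContDiffOn ℝ ∞ G U)
    {X : Type*} [TopologicalSpace X] {z v w T v' w' : X → E} {s : X → ℝ} {x : X}
    (hz : ContinuousAt z x) (hv : ContinuousAt v x) (hw : ContinuousAt w x)
    (hT : ContinuousAt T x) (hv' : ContinuousAt v' x) (hw' : ContinuousAt w' x)
    (hs : ContinuousAt s x) (hx : cc (z x) (v x) (w x) (s x) ∈ U) :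
    ContinuousAt (fun y => e2 G (z y) (v y) (w y) (T y) (v' y) (w' y) (s y)) x := by
  have c0 : ContinuousAt (fun y => cc (z y) (v y) (w y) (s y)) x :=
    (hz.add (hs.smul hv)).add ((hs.pow 2).smul hw)
  have c1 : ContinuousAt (fun y => cd (v y) (w y) (s y)) x :=
    hv.add ((continuousAt_const.mul hs).smul hw)
  have c2 : ContinuousAt (fun y => cc (T y) (v' y) (w' y) (s y)) x :=
    (hT.add (hs.smul hv')).add ((hs.pow 2).smul hw')
  have c3 : ContinuousAt (fun y => cd (v' y) (w' y) (s y)) x :=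
    hv'.add ((continuousAt_const.mul hs).smul hw')
  have g0 : ContinuousAt (fun y => G (cc (z y) (v y) (w y) (s y))) x :=
    ContinuousAt.comp (f := fun y => cc (z y) (v y) (w y) (s y)) (g := G)
      (hG.continuousOn.continuousAt (hU.mem_nhds hx)) c0
  have g1 : ContinuousAt (fun y => fderiv ℝ G (cc (z y) (v y) (w y) (s y))) x :=
    ContinuousAt.comp (f := fun y => cc (z y) (v y) (w y) (s y)) (g := fderiv ℝ G)
      ((contDiffOn_fderiv hU hG).continuousOn.continuousAt (hU.mem_nhds hx)) c0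
  have g2 : ContinuousAt (fun y => fderiv ℝ (fderiv ℝ G) (cc (z y) (v y) (w y) (s y))) x :=
    ContinuousAt.comp (f := fun y => cc (z y) (v y) (w y) (s y)) (g := fderiv ℝ (fderiv ℝ G))
      ((contDiffOn_fderiv hU (contDiffOn_fderiv hU hG)).continuousOn.continuousAt
        (hU.mem_nhds hx)) c0
  have w2 : ContinuousAt (fun y => (2 : ℝ) • w y) x := continuousAt_const.smul hw
  have w2' : ContinuousAt (fun y => (2 : ℝ) • w' y) x := continuousAt_const.smul hw'
  unfold e2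
  refine ((((((g2.clm_apply c1).clm_apply c1).clm_apply c2).clm_apply c2).add
    (((g1.clm_apply w2).clm_apply c2).clm_apply c2)).add
    (((g1.clm_apply c1).clm_apply c3).clm_apply c2)).add
    (((g1.clm_apply c1).clm_apply c2).clm_apply c3) |>.add
    ((((g1.clm_apply c1).clm_apply c3).clm_apply c2).add ((g0.clm_apply w2').clm_apply c2) |>.add
      ((g0.clm_apply c3).clm_apply c3)) |>.add
    ((((g1.clm_apply c1).clm_apply c2).clm_apply c3).add ((g0.clm_apply c3).clm_apply c3) |>.add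
      ((g0.clm_apply c2).clm_apply w2'))

/-- the derivative of a family of symmetric forms is symmetric -/
theorem fderiv_symm {G : E → Bil E} {U : Set E} (hU : IsOpen U) (hG : ContDiffOn ℝ ∞ G U)
    (hP : ∀ z ∈ U, IsPD (G z)) {z : E} (hz : z ∈ U) (x u v : E) :
    fderiv ℝ G z x u v = fderiv ℝ G z x v u := by
  have hd : HasFDerivAt G (fderiv ℝ G z) z :=
    ((hG.differentiableOn (by simp)).differentiableAt (hU.mem_nhds hz)).hasFDerivAt
  have hl : HasDerivAt (fun t : ℝ => z + t • x) x 0 := by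
    have h1 : HasDerivAt (fun s : ℝ => s • x) ((1 : ℝ) • x) 0 := (hasDerivAt_id 0).smul_const x
    rw [one_smul] at h1
    exact h1.const_add z
  have hz0 : z + (0 : ℝ) • x = z := by simp
  have hd' : HasFDerivAt G (fderiv ℝ G z) (z + (0 : ℝ) • x) := by rw [hz0]; exact hd
  have hB := hd'.comp_hasDerivAt (0 : ℝ) hl
  have h1 : HasDerivAt (fun t : ℝ => G (z + t • x) u v) (fderiv ℝ G z x u v) 0 := by
    have := bil_deriv hB (hasDerivAt_const (0 : ℝ) u) (hasDerivAt_const (0 : ℝ) v)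
    simpa using this
  have h2 : HasDerivAt (fun t : ℝ => G (z + t • x) v u) (fderiv ℝ G z x v u) 0 := by
    have := bil_deriv hB (hasDerivAt_const (0 : ℝ) v) (hasDerivAt_const (0 : ℝ) u)
    simpa using this
  have he : ∀ᶠ t in 𝓝 (0 : ℝ), z + t • x ∈ U :=
    hl.continuousAt.eventually_mem (by rw [hz0]; exact hU.mem_nhds hz)
  have h3 : (fun t : ℝ => G (z + t • x) u v) =ᶠ[𝓝 0] fun t : ℝ => G (z + t • x) v u :=
    he.mono fun t ht => (hP _ ht).1 u v
  exact (h1.congr_of_eventuallyEq h3.symm).unique h2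

theorem fderiv_eval {G : E → Bil E} {U : Set E} (hU : IsOpen U) (hG : ContDiffOn ℝ ∞ G U)
    {z : E} (hz : z ∈ U) (v T : E) :
    fderiv ℝ (fun y => fderiv ℝ G y v T T) z v = fderiv ℝ (fderiv ℝ G) z v v T T := by
  have hd2 : HasFDerivAt (fderiv ℝ G) (fderiv ℝ (fderiv ℝ G) z) z :=
    (((contDiffOn_fderiv hU hG).differentiableOn (by simp)).differentiableAt
      (hU.mem_nhds hz)).hasFDerivAt
  have h1 := ((hd2.clm_apply (hasFDerivAt_const v z)).clm_apply
    (hasFDerivAt_const T z)).clm_apply (hasFDerivAt_const T z)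
  rw [h1.fderiv]
  simp

/-- the second derivative at `0` -/
theorem e2_zero {G : E → Bil E} {U : Set E} (hU : IsOpen U) (hG : ContDiffOn ℝ ∞ G U)
    (hP : ∀ z ∈ U, IsPD (G z)) {z : E} (hz : z ∈ U) (v W T v' W' : E) :
    e2 G z v ((1 / 2 : ℝ) • W) T v' ((1 / 2 : ℝ) • W') 0 = 2 * qf G z T v v' W W' := by
  have a1 : cc z v ((1 / 2 : ℝ) • W) 0 = z := by simp [cc]
  have a2 : cc T v' ((1 / 2 : ℝ) • W') 0 = T := by simp [cc]
  have a3 : cd v ((1 / 2 : ℝ) • W) 0 = v := by simp [cd]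
  have a4 : cd v' ((1 / 2 : ℝ) • W') 0 = v' := by simp [cd]
  have a5 : (2 : ℝ) • ((1 / 2 : ℝ) • W) = W := by rw [smul_smul]; norm_num
  have a6 : (2 : ℝ) • ((1 / 2 : ℝ) • W') = W' := by rw [smul_smul]; norm_num
  unfold e2 qf
  rw [a1, a2, a3, a4, a5, a6, fderiv_eval hU hG hz, fderiv_symm hU hG hP hz v T v',
    (hP z hz).1 T W']
  ring

theorem tay (E : Type*) [NormedAddCommGroup E] [NormedSpace ℝ E] [FiniteDimensional ℝ E] :
    S_TAY E := by
  intro U G β V W T V' W' a b hU hG hP hab hβ hV hW hT hV' hW' hβU ε hε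
  -- the compact set of data
  let d : ℝ → E × E × E × E × E × E := fun t =>
    (β t, V t, (1 / 2 : ℝ) • W t, T t, V' t, (1 / 2 : ℝ) • W' t)
  have hd : ContinuousOn d (Icc a b) :=
    hβ.prodMk (hV.prodMk ((hW.const_smul (1 / 2 : ℝ)).prodMk (hT.prodMk (hV'.prodMk
      (hW'.const_smul (1 / 2 : ℝ))))))
  have hK : IsCompact (d '' Icc a b) := isCompact_Icc.image_of_continuousOn hd
  let P : (ℝ × E × E) → (E × E × E × E × E × E) → Prop := fun x y =>
    cc y.1 y.2.1 (y.2.2.1 + x.2.1) x.1 ∈ U ∧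
      |e2 G y.1 y.2.1 (y.2.2.1 + x.2.1) y.2.2.2.1 y.2.2.2.2.1 (y.2.2.2.2.2 + x.2.2) x.1
        - e2 G y.1 y.2.1 y.2.2.1 y.2.2.2.1 y.2.2.2.2.1 y.2.2.2.2.2 0| ≤ ε
  have hP' : ∀ y ∈ d '' Icc a b, ∀ᶠ q : (ℝ × E × E) × (E × E × E × E × E × E) in
      𝓝 (((0 : ℝ), (0 : E), (0 : E)), y), P q.1 q.2 := by
    rintro y ⟨t, ht, rfl⟩
    have hc : cc (β t) (V t) ((1 / 2 : ℝ) • W t + 0) 0 = β t := by simp [cc]
    have hc' : cc (β t) (V t) ((1 / 2 : ℝ) • W t) 0 = β t := by simp [cc]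
    have k1 : ∀ᶠ q : (ℝ × E × E) × (E × E × E × E × E × E) in
        𝓝 (((0 : ℝ), (0 : E), (0 : E)), d t),
        cc q.2.1 q.2.2.1 (q.2.2.2.1 + q.1.2.1) q.1.1 ∈ U := by
      have hcont : Continuous (fun q : (ℝ × E × E) × (E × E × E × E × E × E) =>
          cc q.2.1 q.2.2.1 (q.2.2.2.1 + q.1.2.1) q.1.1) := by
        unfold cc
        fun_prop
      refine hcont.continuousAt.eventually_mem ?_
      refine hU.mem_nhds ?_
      change cc (β t) (V t) ((1 / 2 : ℝ) • W t + 0) 0 ∈ U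
      rw [hc]
      exact hβU t ht
    have k2 : ContinuousAt (fun q : (ℝ × E × E) × (E × E × E × E × E × E) =>
        e2 G q.2.1 q.2.2.1 (q.2.2.2.1 + q.1.2.1) q.2.2.2.2.1 q.2.2.2.2.2.1
          (q.2.2.2.2.2.2 + q.1.2.2) q.1.1
        - e2 G q.2.1 q.2.2.1 q.2.2.2.1 q.2.2.2.2.1 q.2.2.2.2.2.1 q.2.2.2.2.2.2 0)
        (((0 : ℝ), (0 : E), (0 : E)), d t) := by
      refine ContinuousAt.sub ?_ ?_
      · refine continuousAt_e2 hU hG (by fun_prop) (by fun_prop) (by fun_prop) (by fun_prop)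
          (by fun_prop) (by fun_prop) (by fun_prop) ?_
        change cc (β t) (V t) ((1 / 2 : ℝ) • W t + 0) 0 ∈ U
        rw [hc]
        exact hβU t ht
      · refine continuousAt_e2 hU hG (by fun_prop) (by fun_prop) (by fun_prop) (by fun_prop)
          (by fun_prop) (by fun_prop) (by fun_prop) ?_
        change cc (β t) (V t) ((1 / 2 : ℝ) • W t) 0 ∈ U
        rw [hc']
        exact hβU t ht
    have k3 : ∀ᶠ q : (ℝ × E × E) × (E × E × E × E × E × E) in
        𝓝 (((0 : ℝ), (0 : E), (0 : E)), d t),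
        (e2 G q.2.1 q.2.2.1 (q.2.2.2.1 + q.1.2.1) q.2.2.2.2.1 q.2.2.2.2.2.1
          (q.2.2.2.2.2.2 + q.1.2.2) q.1.1
        - e2 G q.2.1 q.2.2.1 q.2.2.2.1 q.2.2.2.2.1 q.2.2.2.2.2.1 q.2.2.2.2.2.2 0) ∈
          Metric.ball (0 : ℝ) ε := by
      refine k2.eventually_mem ?_
      have : e2 G (β t) (V t) ((1 / 2 : ℝ) • W t + 0) (T t) (V' t) ((1 / 2 : ℝ) • W' t + 0) 0
          - e2 G (β t) (V t) ((1 / 2 : ℝ) • W t) (T t) (V' t) ((1 / 2 : ℝ) • W' t) 0 = 0 := by
        rw [add_zero, add_zero, sub_self]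
      change Metric.ball (0 : ℝ) ε ∈ 𝓝 (e2 G (β t) (V t) ((1 / 2 : ℝ) • W t + 0) (T t) (V' t)
        ((1 / 2 : ℝ) • W' t + 0) 0
          - e2 G (β t) (V t) ((1 / 2 : ℝ) • W t) (T t) (V' t) ((1 / 2 : ℝ) • W' t) 0)
      rw [this]
      exact Metric.ball_mem_nhds 0 hε
    filter_upwards [k1, k3] with q q1 q2
    refine ⟨q1, ?_⟩
    rw [Metric.mem_ball, dist_zero_right, Real.norm_eq_abs] at q2
    exact q2.le
  have hev := hK.eventually_forall_of_forall_eventually hP'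
  rw [Metric.eventually_nhds_iff] at hev
  obtain ⟨η, hη, hev⟩ := hev
  refine ⟨η / 2, by positivity, ?_⟩
  intro s hs r r' hr hr' t ht
  have hyK : d t ∈ d '' Icc a b := ⟨t, ht, rfl⟩
  -- the rescaled remainders
  obtain ⟨ρ, hρ, hρr⟩ : ∃ ρ : E, ‖ρ‖ < η ∧ r = s ^ 2 • ρ := by
    rcases eq_or_ne s 0 with h | h
    · refine ⟨0, by simpa using hη, ?_⟩
      subst h
      have : ‖r‖ ≤ 0 := by simpa using hr
      simpa using norm_le_zero_iff.1 this
    · have hs2 : 0 < s ^ 2 := by positivity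
      refine ⟨(s ^ 2)⁻¹ • r, ?_, ?_⟩
      · rw [norm_smul, norm_inv, Real.norm_of_nonneg hs2.le]
        have : (s ^ 2)⁻¹ * ‖r‖ ≤ (s ^ 2)⁻¹ * (η / 2 * s ^ 2) :=
          mul_le_mul_of_nonneg_left hr (by positivity)
        have e : (s ^ 2)⁻¹ * (η / 2 * s ^ 2) = η / 2 := by field_simp
        rw [e] at this
        linarith
      · rw [smul_smul, mul_inv_cancel₀ hs2.ne', one_smul]
  obtain ⟨ρ', hρ', hρr'⟩ : ∃ ρ : E, ‖ρ‖ < η ∧ r' = s ^ 2 • ρ := by
    rcases eq_or_ne s 0 with h | h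
    · refine ⟨0, by simpa using hη, ?_⟩
      subst h
      have : ‖r'‖ ≤ 0 := by simpa using hr'
      simpa using norm_le_zero_iff.1 this
    · have hs2 : 0 < s ^ 2 := by positivity
      refine ⟨(s ^ 2)⁻¹ • r', ?_, ?_⟩
      · rw [norm_smul, norm_inv, Real.norm_of_nonneg hs2.le]
        have : (s ^ 2)⁻¹ * ‖r'‖ ≤ (s ^ 2)⁻¹ * (η / 2 * s ^ 2) :=
          mul_le_mul_of_nonneg_left hr' (by positivity)
        have e : (s ^ 2)⁻¹ * (η / 2 * s ^ 2) = η / 2 := by field_simp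
        rw [e] at this
        linarith
      · rw [smul_smul, mul_inv_cancel₀ hs2.ne', one_smul]
  have key : ∀ x : ℝ, |x| < η → P (x, ρ, ρ') (d t) := by
    intro x hx
    refine hev (y := (x, ρ, ρ')) ?_ (d t) hyK
    rw [Prod.dist_eq, Prod.dist_eq]
    simp only [dist_zero_right, Real.norm_eq_abs]
    exact max_lt hx (max_lt hρ hρ')
  have hs' : |s| < η := by linarith
  have hbase : cc (β t) (V t) ((1 / 2 : ℝ) • W t + ρ) s =
      β t + s • V t + (s ^ 2 / 2) • W t + r := by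
    rw [hρr, cc, smul_add, smul_smul]
    have : s ^ 2 * (1 / 2) = s ^ 2 / 2 := by ring
    rw [this]
    abel
  have hfib : cc (T t) (V' t) ((1 / 2 : ℝ) • W' t + ρ') s =
      T t + s • V' t + (s ^ 2 / 2) • W' t + r' := by
    rw [hρr', cc, smul_add, smul_smul]
    have : s ^ 2 * (1 / 2) = s ^ 2 / 2 := by ring
    rw [this]
    abel
  refine ⟨?_, ?_⟩
  · rw [← hbase]
    exact (key s hs').1
  · have h := taylor2 (f := e0 G (β t) (V t) ((1 / 2 : ℝ) • W t + ρ) (T t) (V' t)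
        ((1 / 2 : ℝ) • W' t + ρ'))
      (fun x hx => hasDerivAt_e0 hU hG _ _ _ _ _ _ (key x hx).1)
      (fun x hx => hasDerivAt_e1 hU hG _ _ _ _ _ _ (key x hx).1)
      (fun x hx => (key x hx).2) hs'
    have a0 : e0 G (β t) (V t) ((1 / 2 : ℝ) • W t + ρ) (T t) (V' t)
        ((1 / 2 : ℝ) • W' t + ρ') 0 = G (β t) (T t) (T t) := by simp [e0, cc]
    have a1 : e1 G (β t) (V t) ((1 / 2 : ℝ) • W t + ρ) (T t) (V' t)
        ((1 / 2 : ℝ) • W' t + ρ') 0 = fderiv ℝ G (β t) (V t) (T t) (T t)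
          + 2 * G (β t) (V' t) (T t) := by
      have b1 : cc (β t) (V t) ((1 / 2 : ℝ) • W t + ρ) 0 = β t := by simp [cc]
      have b2 : cc (T t) (V' t) ((1 / 2 : ℝ) • W' t + ρ') 0 = T t := by simp [cc]
      have b3 : cd (V t) ((1 / 2 : ℝ) • W t + ρ) 0 = V t := by simp [cd]
      have b4 : cd (V' t) ((1 / 2 : ℝ) • W' t + ρ') 0 = V' t := by simp [cd]
      rw [e1, b1, b2, b3, b4, (hP _ (hβU t ht)).1 (T t) (V' t)]
      ring
    have a2 : e0 G (β t) (V t) ((1 / 2 : ℝ) • W t + ρ) (T t) (V' t)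
        ((1 / 2 : ℝ) • W' t + ρ') s = G (β t + s • V t + (s ^ 2 / 2) • W t + r)
          (T t + s • V' t + (s ^ 2 / 2) • W' t + r')
          (T t + s • V' t + (s ^ 2 / 2) • W' t + r') := by
      rw [e0, hbase, hfib]
    have a3 : e2 G (β t) (V t) ((1 / 2 : ℝ) • W t) (T t) (V' t) ((1 / 2 : ℝ) • W' t) 0 =
        2 * qf G (β t) (T t) (V t) (V' t) (W t) (W' t) :=
      e2_zero hU hG hP (hβU t ht) _ _ _ _ _
    change |e0 G (β t) (V t) ((1 / 2 : ℝ) • W t + ρ) (T t) (V' t) ((1 / 2 : ℝ) • W' t + ρ') s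
      - e0 G (β t) (V t) ((1 / 2 : ℝ) • W t + ρ) (T t) (V' t) ((1 / 2 : ℝ) • W' t + ρ') 0
      - s * e1 G (β t) (V t) ((1 / 2 : ℝ) • W t + ρ) (T t) (V' t) ((1 / 2 : ℝ) • W' t + ρ') 0
      - s ^ 2 / 2 * e2 G (β t) (V t) ((1 / 2 : ℝ) • W t) (T t) (V' t)
        ((1 / 2 : ℝ) • W' t) 0| ≤ ε * s ^ 2 at h
    rw [a0, a1, a2, a3] at h
    have e : s ^ 2 / 2 * (2 * qf G (β t) (T t) (V t) (V' t) (W t) (W' t)) =
        s ^ 2 * qf G (β t) (T t) (V t) (V' t) (W t) (W' t) := by ring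
    rw [e] at h
    exact h

end Pool.Agent.Helper88.SRD
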