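import Pool.Agent.Helper75.SR.Goals2
import Pool.Agent.Helper60.SR.GDer
import Pool.Agent.Helper25.SR.GAlg

/-!
Packet SR-GReebLoc of MP_d08e19_gt: frame fields along Reeb orbits in a chart.
-/

open Set Filter
open scoped ContDiff Topology

noncomputable section

namespace Pool.Agent.Helper88.Reeb

open Pool.Agent.Helper75.SR Pool.Agent.Helper60.SR Pool.Agent.Helper25.SR

set_option synthInstance.maxSize 1000

variable {E : Type} [NormedAddCommGroup E] [NormedSpace ℝ E] {U : Set E}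

/-- a unit horizontal vector -/
theorem exists_unit [FiniteDimensional ℝ E] (S : LocSas E U) {z : E} (hz : z ∈ U)
    (h3 : 3 < Module.finrank ℝ E) :
    ∃ e : E, (∀ i, S.g z (S.xi i z) e = 0) ∧ S.g z e e = 1 := by
  let f : E →ₗ[ℝ] (Fin 3 → ℝ) := LinearMap.pi fun i => (S.g z (S.xi i z) : E →ₗ[ℝ] ℝ)
  have hk : LinearMap.ker f ≠ ⊥ := by
    refine LinearMap.ker_ne_bot_of_finrank_lt ?_
    simpa using h3
  obtain ⟨v, hv, hv0⟩ := (Submodule.ne_bot_iff _).1 hk
  have hv1 : ∀ i, S.g z (S.xi i z) v = 0 := by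
    intro i
    have := congrFun (LinearMap.mem_ker.1 hv) i
    simpa [f] using this
  have hp : 0 < S.g z v v := S.g_pos z hz v hv0
  refine ⟨(Real.sqrt (S.g z v v))⁻¹ • v, fun i => ?_, ?_⟩
  · rw [map_smul, hv1 i, smul_zero]
  · have hs : Real.sqrt (S.g z v v) * Real.sqrt (S.g z v v) = S.g z v v :=
      Real.mul_self_sqrt hp.le
    have hs0 : Real.sqrt (S.g z v v) ≠ 0 := (Real.sqrt_pos.2 hp).ne'
    have : S.g z ((Real.sqrt (S.g z v v))⁻¹ • v) ((Real.sqrt (S.g z v v))⁻¹ • v) =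
        (Real.sqrt (S.g z v v))⁻¹ * ((Real.sqrt (S.g z v v))⁻¹ * S.g z v v) := by
      rw [map_smul, map_smul]
      rfl
    rw [this]
    nth_rewrite 3 [← hs]
    field_simp

/-- a function with zero derivative on an interval is constant -/
theorem const_of_deriv {f : ℝ → ℝ} {a b : ℝ} (hab : a < b)
    (h : ∀ t ∈ Icc a b, HasDerivWithinAt f 0 (Icc a b) t) {t : ℝ} (ht : t ∈ Icc a b) :
    f t = f a := by
  have := (convex_Icc a b).norm_image_sub_le_of_norm_hasDerivWithin_le (C := 0) h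
    (fun x _ => by simp) (left_mem_Icc.2 hab.le) ht
  rw [zero_mul] at this
  have h0 := norm_le_zero_iff.1 this
  linarith

theorem gam_contOn (S : LocSas E U) : ContinuousOn S.Gam U := S.Gam_smooth.continuousOn

theorem reebLoc (hL : GLODE) : GReebLoc := by
  intro E _ _ _ U S κ w a b c h3 hab hc
  have hcc : ContinuousOn c (Icc a b) := fun t ht => (hc t ht).2.continuousAt.continuousWithinAt
  have hcU : MapsTo c (Icc a b) U := fun t ht => (hc t ht).1
  have hGam : ContinuousOn (fun t => S.Gam (c t)) (Icc a b) := S.Gam_smooth.continuousOn.comp hcc hcU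
  have hxi : ContinuousOn (fun t => S.xi 0 (c t)) (Icc a b) :=
    (S.xi_smooth 0).continuousOn.comp hcc hcU
  have hphi : ContinuousOn (fun t => S.phi 0 (c t)) (Icc a b) :=
    (phi_contDiffOn S 0).continuousOn.comp hcc hcU
  let A : ℝ → E →L[ℝ] E := fun t => -(S.Gam (c t) (w • S.xi 0 (c t))) + κ • S.phi 0 (c t)
  have hA : ContinuousOn A (Icc a b) :=
    ((hGam.clm_apply (hxi.const_smul w)).neg).add (hphi.const_smul κ)
  obtain ⟨e0, he0, he1⟩ := exists_unit S (hc a (left_mem_Icc.2 hab.le)).1 h3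
  obtain ⟨x, hxa, hx⟩ := hL E A a b hab hA e0
  -- derivatives of the moving objects
  have hg : ∀ t ∈ Icc a b, HasDerivWithinAt (fun s => S.g (c s))
      (fderiv ℝ S.g (c t) (w • S.xi 0 (c t))) (Icc a b) t := by
    intro t ht
    have h1 : HasFDerivAt S.g (fderiv ℝ S.g (c t)) (c t) :=
      ((S.g_smooth.contDiffAt (S.isOpen.mem_nhds (hcU ht))).differentiableAt
        (by simp)).hasFDerivAt
    exact (h1.comp_hasDerivAt t (hc t ht).2).hasDerivWithinAt
  have hX : ∀ i, ∀ t ∈ Icc a b, HasDerivWithinAt (fun s => S.xi i (c s))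
      (fderiv ℝ (S.xi i) (c t) (w • S.xi 0 (c t))) (Icc a b) t := by
    intro i t ht
    exact ((xi_hasFDerivAt S (hcU ht) i).comp_hasDerivAt t (hc t ht).2).hasDerivWithinAt
  have hy : ∀ i, ∀ t ∈ Icc a b, HasDerivWithinAt (fun s => S.g (c s) (S.xi i (c s)) (x s))
      (-(w * S.g (c t) (S.phi i (c t) (S.xi 0 (c t))) (x t))
        - κ * S.g (c t) (S.phi 0 (c t) (S.xi i (c t))) (x t)) (Icc a b) t := by
    intro i t ht
    have h1 := ((hg t ht).clm_apply (hX i t ht)).clm_apply (hx t ht)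
    have hz := hcU ht
    have hcomp := S.compat (c t) hz (w • S.xi 0 (c t)) (S.xi i (c t)) (x t)
    have hDx := D_xi S (c t) i (w • S.xi 0 (c t))
    have hkil := S.killing (c t) hz 0 (S.xi i (c t)) (x t)
    have e1 : fderiv ℝ (S.xi i) (c t) (w • S.xi 0 (c t)) =
        - (w • S.phi i (c t) (S.xi 0 (c t))) - S.Gam (c t) (w • S.xi 0 (c t)) (S.xi i (c t)) := by
      rw [eq_sub_of_add_eq hDx, (S.phi i (c t)).map_smul]
    have e2 : A t (x t) = -(S.Gam (c t) (w • S.xi 0 (c t)) (x t)) + κ • S.phi 0 (c t) (x t) := rfl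
    refine h1.congr_deriv ?_
    have e3 : ((fderiv ℝ S.g (c t) (w • S.xi 0 (c t)) (S.xi i (c t))
        + S.g (c t) (fderiv ℝ (S.xi i) (c t) (w • S.xi 0 (c t)))) (x t)
        + S.g (c t) (S.xi i (c t)) (A t (x t))) =
        fderiv ℝ S.g (c t) (w • S.xi 0 (c t)) (S.xi i (c t)) (x t)
        + S.g (c t) (fderiv ℝ (S.xi i) (c t) (w • S.xi 0 (c t))) (x t)
        + S.g (c t) (S.xi i (c t)) (A t (x t)) := rfl
    rw [e3, hcomp, e1, e2, (S.g (c t)).map_sub, (S.g (c t)).map_neg,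
      (S.g (c t) (S.xi i (c t))).map_add, (S.g (c t) (S.xi i (c t))).map_neg,
      (S.g (c t)).map_smul, (S.g (c t) (S.xi i (c t))).map_smul]
    have e4 : (-(w • S.g (c t) (S.phi i (c t) (S.xi 0 (c t))))
        - S.g (c t) (S.Gam (c t) (w • S.xi 0 (c t)) (S.xi i (c t)))) (x t) =
        -(w * S.g (c t) (S.phi i (c t) (S.xi 0 (c t))) (x t))
        - S.g (c t) (S.Gam (c t) (w • S.xi 0 (c t)) (S.xi i (c t))) (x t) := rfl
    have hkil' : S.g (c t) (S.phi 0 (c t) (S.xi i (c t))) (x t) =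
        - S.g (c t) (S.xi i (c t)) (S.phi 0 (c t) (x t)) := hkil
    rw [e4, hkil', smul_eq_mul]
    ring
  have hN : ∀ t ∈ Icc a b, HasDerivWithinAt (fun s => S.g (c s) (x s) (x s)) 0 (Icc a b) t := by
    intro t ht
    have h1 := ((hg t ht).clm_apply (hx t ht)).clm_apply (hx t ht)
    have hz := hcU ht
    have hcomp := S.compat (c t) hz (w • S.xi 0 (c t)) (x t) (x t)
    have hkil : S.g (c t) (S.phi 0 (c t) (x t)) (x t) =
        - S.g (c t) (x t) (S.phi 0 (c t) (x t)) := S.killing (c t) hz 0 (x t) (x t)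
    have hsy := S.g_symm (c t) hz (x t) (S.phi 0 (c t) (x t))
    have e2 : A t (x t) = -(S.Gam (c t) (w • S.xi 0 (c t)) (x t)) + κ • S.phi 0 (c t) (x t) := rfl
    refine h1.congr_deriv ?_
    have e3 : ((fderiv ℝ S.g (c t) (w • S.xi 0 (c t)) (x t)
        + S.g (c t) (A t (x t))) (x t)
        + S.g (c t) (x t) (A t (x t))) =
        fderiv ℝ S.g (c t) (w • S.xi 0 (c t)) (x t) (x t)
        + S.g (c t) (A t (x t)) (x t)
        + S.g (c t) (x t) (A t (x t)) := rfl
    rw [e3, hcomp, S.g_symm (c t) hz (A t (x t)) (x t), e2, (S.g (c t) (x t)).map_add,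
      (S.g (c t) (x t)).map_neg, (S.g (c t) (x t)).map_smul,
      S.g_symm (c t) hz (S.Gam (c t) (w • S.xi 0 (c t)) (x t)) (x t), smul_eq_mul]
    have h0 : S.g (c t) (x t) (S.phi 0 (c t) (x t)) = 0 := by linarith
    rw [h0]
    ring
  -- algebra
  have e11 : (1 : Fin 3) + 1 = 2 := by decide
  have e12 : (1 : Fin 3) + 2 = 0 := by decide
  have e20 : (2 : Fin 3) + 1 = 0 := by decide
  have e21 : (2 : Fin 3) + 2 = 1 := by decide
  have e01 : (0 : Fin 3) + 1 = 1 := by decide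
  have e02 : (0 : Fin 3) + 2 = 2 := by decide
  have alg : ∀ t ∈ Icc a b, S.phi 0 (c t) (S.xi 0 (c t)) = 0 ∧
      S.phi 0 (c t) (S.xi 1 (c t)) = S.xi 2 (c t) ∧
      S.phi 0 (c t) (S.xi 2 (c t)) = - S.xi 1 (c t) ∧
      S.phi 1 (c t) (S.xi 0 (c t)) = - S.xi 2 (c t) ∧
      S.phi 2 (c t) (S.xi 0 (c t)) = S.xi 1 (c t) := by
    intro t ht
    have h0 := gAlg E U S (c t) (hcU ht) 0 0
    have h1 := gAlg E U S (c t) (hcU ht) 1 0
    have h2 := gAlg E U S (c t) (hcU ht) 2 0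
    rw [e01, e02] at h0
    rw [e11, e12] at h1
    rw [e20, e21] at h2
    exact ⟨h0.1, h0.2.1, h0.2.2.1, h1.2.2.1, h2.2.1⟩
  have ha := left_mem_Icc.2 hab.le
  have y0 : ∀ t ∈ Icc a b, S.g (c t) (S.xi 0 (c t)) (x t) = 0 := by
    intro t ht
    have := const_of_deriv (f := fun s => S.g (c s) (S.xi 0 (c s)) (x s)) hab (fun s hs => by
      refine (hy 0 s hs).congr_deriv ?_
      rw [(alg s hs).1, map_zero]
      simp) ht
    beta_reduce at this
    rw [this, hxa]
    exact he0 0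
  have y12 : ∀ t ∈ Icc a b, (S.g (c t) (S.xi 1 (c t)) (x t)) ^ 2
      + (S.g (c t) (S.xi 2 (c t)) (x t)) ^ 2 = 0 := by
    intro t ht
    have := const_of_deriv (f := fun s => (S.g (c s) (S.xi 1 (c s)) (x s)) ^ 2
      + (S.g (c s) (S.xi 2 (c s)) (x s)) ^ 2) hab (fun s hs => by
      have h1 := (hy 1 s hs).pow 2
      have h2 := (hy 2 s hs).pow 2
      refine (h1.add h2).congr_deriv ?_
      rw [(alg s hs).2.1, (alg s hs).2.2.1, (alg s hs).2.2.2.1, (alg s hs).2.2.2.2, map_neg,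
        map_neg]
      simp only [neg_apply]
      ring) ht
    beta_reduce at this
    rw [this, hxa, he0 1, he0 2]
    norm_num
  have hor : ∀ t ∈ Icc a b, ∀ i, S.g (c t) (S.xi i (c t)) (x t) = 0 := by
    intro t ht i
    have h12 := y12 t ht
    have h1 : S.g (c t) (S.xi 1 (c t)) (x t) = 0 := by nlinarith [sq_nonneg (S.g (c t) (S.xi 1 (c t)) (x t)), sq_nonneg (S.g (c t) (S.xi 2 (c t)) (x t))]
    have h2 : S.g (c t) (S.xi 2 (c t)) (x t) = 0 := by nlinarith [sq_nonneg (S.g (c t) (S.xi 1 (c t)) (x t)), sq_nonneg (S.g (c t) (S.xi 2 (c t)) (x t))]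
    fin_cases i
    · exact y0 t ht
    · exact h1
    · exact h2
  have hnorm : ∀ t ∈ Icc a b, S.g (c t) (x t) (x t) = 1 := by
    intro t ht
    have := const_of_deriv (f := fun s => S.g (c s) (x s) (x s)) hab hN ht
    beta_reduce at this
    rw [this, hxa]
    exact he1
  have hd : ∀ t ∈ Ioo a b, HasDerivAt x (A t (x t)) t := fun t ht =>
    (hx t (Ioo_subset_Icc_self ht)).hasDerivAt (Icc_mem_nhds ht.1 ht.2)
  have hxc : ContinuousOn x (Icc a b) := fun t ht => (hx t ht).continuousWithinAt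
  have hcd : ContDiffOn ℝ 1 x (Ioo a b) := by
    have : ContDiffOn ℝ (0 + 1) x (Ioo a b) := by
      rw [contDiffOn_succ_iff_deriv_of_isOpen isOpen_Ioo]
      refine ⟨fun t ht => (hd t ht).differentiableAt.differentiableWithinAt, by simp, ?_⟩
      rw [contDiffOn_zero]
      have h1 : ContinuousOn (fun t => A t (x t)) (Ioo a b) :=
        (hA.clm_apply hxc).mono Ioo_subset_Icc_self
      exact h1.congr fun t ht => (hd t ht).deriv
    simpa using this
  refine ⟨x, fun t ht => ⟨hcd.contDiffAt (isOpen_Ioo.mem_nhds ht),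
    hor t (Ioo_subset_Icc_self ht), hnorm t (Ioo_subset_Icc_self ht), ?_⟩⟩
  rw [(hd t ht).deriv]
  change -(S.Gam (c t) (w • S.xi 0 (c t)) (x t)) + κ • S.phi 0 (c t) (x t)
    + S.Gam (c t) (w • S.xi 0 (c t)) (x t) = κ • S.phi 0 (c t) (x t)
  abel

end Pool.Agent.Helper88.Reeb
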